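import Pool.Agent.W221.NS.Stm4
import Pool.Agent.W335.MD.CT

/-!
# MH-MARK3: Tonelli along the flow (adapted from ME-MARK2 of helper298)
-/

set_option autoImplicit false

open MeasureTheory Set Metric
open scoped ContDiff ENNReal

namespace W919.MH.MARK3

open H459R3.NS W221.NS W335.MD

theorem measurable_indicator {f : ℝ × V → ℝ} {S : Set (ℝ × V)} (hS : MeasurableSet S)
    (hf : ContinuousOn f S) : Measurable (S.indicator fun z => ENNReal.ofReal (f z)) := by
  refine measurable_of_restrict_of_restrict_compl hS ?_ ?_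
  · have h1 : S.domRestrict (S.indicator fun z => ENNReal.ofReal (f z))
        = fun z : S => ENNReal.ofReal (S.domRestrict f z) := by
      funext z
      simp [Set.domRestrict_apply]
    rw [h1]
    exact ENNReal.measurable_ofReal.comp (continuousOn_iff_continuous_domRestrict.1 hf).measurable
  · have h1 : Sᶜ.domRestrict (S.indicator fun z => ENNReal.ofReal (f z)) = fun _ => 0 := by
      funext z
      have hz : (z : ℝ × V) ∉ S := z.2
      simp [Set.domRestrict_apply, hz]
    rw [h1]
    exact measurable_const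

theorem vol (y : V) (r : ℝ) (hr : 0 < r) :
    ∫⁻ z, (ball y (8 * r)).indicator (fun _ => (1 : ℝ≥0∞)) z = ENNReal.ofReal (4096 * r ^ 3) := by
  rw [lintegral_indicator isOpen_ball.measurableSet, setLIntegral_one,
    Real.volume_pi_ball y (by positivity : 0 < 8 * r)]
  have h3 : (2 * (8 * r)) ^ Fintype.card (Fin 3) = 4096 * r ^ 3 := by
    rw [Fintype.card_fin]
    ring
  rw [h3]

theorem t_MARK3 : S_MARK3 := by
  intro T κ E F O u p hu r s hr hs hsT X c hX hmap
  have hr2 : 0 < r ^ 2 := by positivity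
  have hgs : ContinuousOn (fun z : ℝ × V => gsq (u z.1) z.2) (Ioo 0 T ×ˢ univ) :=
    gsq_cont hu.smooth_u
  set S : Set (ℝ × V) := Ioo (s - r ^ 2) s ×ˢ O with hS
  have hSm : MeasurableSet S := measurableSet_Ioo.prod hu.openO.measurableSet
  have hSsub : S ⊆ Ioo 0 T ×ˢ univ := by
    rintro ⟨τ, y⟩ ⟨h1, _⟩
    simp only [mem_Ioo] at h1
    exact ⟨⟨by linarith [h1.1], by linarith [h1.2]⟩, mem_univ _⟩
  set G : ℝ × V → ℝ≥0∞ := S.indicator fun z => ENNReal.ofReal (gsq (u z.1) z.2) with hG
  have hGm : Measurable G := measurable_indicator hSm (hgs.mono hSsub)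
  -- the clamped flow
  set cl : ℝ → ℝ := fun t => s + r ^ 2 * max (-1) (min 0 t) with hcl
  have hclc : Continuous cl := by rw [hcl]; fun_prop
  have hclm : ∀ t, cl t ∈ Icc (s - r ^ 2) s := by
    intro t
    rw [hcl]
    have h1 : (-1 : ℝ) ≤ max (-1) (min 0 t) := le_max_left _ _
    have h2 : max (-1) (min 0 t) ≤ 0 := max_le (by norm_num) (min_le_left _ _)
    constructor
    · simp only; nlinarith
    · simp only; nlinarith
  have hcleq : ∀ t ∈ Ioo (-1 : ℝ) 0, cl t = s + r ^ 2 * t := by
    intro t ht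
    rw [hcl]
    simp only
    rw [min_eq_right ht.2.le, max_eq_right ht.1.le]
  have hXc : Continuous (fun z : ℝ × V => X (cl z.1) z.2) := by
    have h1 : Continuous (fun z : ℝ × V => (cl z.1, z.2)) :=
      (hclc.comp continuous_fst).prodMk continuous_snd
    have h2 := hX.comp_continuous h1 (fun z => ⟨hclm z.1, mem_univ _⟩)
    exact h2
  have hXt : ∀ t, Continuous (X (cl t)) := fun t =>
    hXc.comp (continuous_const.prodMk continuous_id : Continuous fun x : V => (t, x))
  -- the integrand
  set B : V → V → ℝ≥0∞ := fun z y => (ball z (8 * r)).indicator (fun _ => 1) y with hB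
  have hBm : Measurable (fun w : V × V => B w.1 w.2) := by
    have h1 : MeasurableSet {w : V × V | dist w.2 w.1 < 8 * r} :=
      (isOpen_lt (by fun_prop) continuous_const).measurableSet
    have h2 : (fun w : V × V => B w.1 w.2)
        = {w : V × V | dist w.2 w.1 < 8 * r}.indicator fun _ => 1 := by
      funext w
      rw [hB]
      simp only [Set.indicator, mem_ball]
      rfl
    rw [h2]
    exact measurable_const.indicator h1
  have hBsymm : ∀ z y, B z y = B y z := by
    intro z y
    rw [hB]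
    simp only [Set.indicator, mem_ball]
    rw [dist_comm]
  -- inner integral
  have hinner : ∀ t ∈ Ioo (-1 : ℝ) 0, ∀ x, ∫⁻ y in ball (X (s + r ^ 2 * t) x) (8 * r) ∩ O,
      ENNReal.ofReal (gsq (u (s + r ^ 2 * t)) y)
      = ∫⁻ y, B (X (cl t) x) y * G (cl t, y) := by
    intro t ht x
    rw [← lintegral_indicator (isOpen_ball.measurableSet.inter hu.openO.measurableSet)]
    congr 1
    funext y
    rw [hcleq t ht]
    have hτ : s + r ^ 2 * t ∈ Ioo (s - r ^ 2) s := by
      constructor
      · nlinarith [ht.1]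
      · nlinarith [ht.2]
    rw [hB, hG]
    simp only [Set.indicator, mem_inter_iff]
    by_cases h1 : y ∈ ball (X (s + r ^ 2 * t) x) (8 * r)
    · by_cases h2 : y ∈ O
      · have h3 : (s + r ^ 2 * t, y) ∈ S := ⟨hτ, h2⟩
        rw [if_pos ⟨h1, h2⟩, if_pos h1, if_pos h3, one_mul]
      · have h3 : (s + r ^ 2 * t, y) ∉ S := fun h => h2 h.2
        rw [if_neg (fun h => h2 h.2), if_neg h3, mul_zero]
    · rw [if_neg (fun h => h1 h.1), if_neg h1, zero_mul]
  -- the ball
  have hvol : ∀ y : V, ∫⁻ z, B z y = ENNReal.ofReal (4096 * r ^ 3) := by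
    intro y
    have h1 : (fun z => B z y) = (ball y (8 * r)).indicator (fun _ => 1) := by
      funext z
      exact hBsymm z y
    rw [h1]
    exact vol y r hr
  have hlast : ∀ τ ∈ Ioo (s - r ^ 2) s, ∫⁻ y, G (τ, y)
      = ∫⁻ y in O, ENNReal.ofReal (gsq (u τ) y) := by
    intro τ hτ
    rw [← lintegral_indicator hu.openO.measurableSet]
    congr 1
    funext y
    rw [hG]
    simp only [Set.indicator]
    by_cases h2 : y ∈ O
    · have h3 : (τ, y) ∈ S := ⟨hτ, h2⟩
      rw [if_pos h3, if_pos h2]
    · have h3 : (τ, y) ∉ S := fun h => h2 h.2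
      rw [if_neg h3, if_neg h2]
  clear_value B G cl
  -- measurability
  have hF : Measurable (fun w : ℝ × V => ∫⁻ y, B w.2 y * G (cl w.1, y)) := by
    apply Measurable.lintegral_prod_right'
      (f := fun w : (ℝ × V) × V => B w.1.2 w.2 * G (cl w.1.1, w.2))
    have g1 : Measurable (fun w : (ℝ × V) × V => ((w.1.2, w.2) : V × V)) := by fun_prop
    have g2 : Measurable (fun w : (ℝ × V) × V => ((cl w.1.1, w.2) : ℝ × V)) :=
      (hclc.measurable.comp (measurable_fst.comp measurable_fst)).prodMk measurable_snd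
    exact (hBm.comp g1).mul (hGm.comp g2)
  -- the integral at one time
  have htime : ∀ t, ∫⁻ x, ∫⁻ y, B (X (cl t) x) y * G (cl t, y)
      ≤ c * ENNReal.ofReal (4096 * r ^ 3) * ∫⁻ y, G (cl t, y) := by
    intro t
    have hFt : Measurable (fun z : V => ∫⁻ y, B z y * G (cl t, y)) :=
      hF.comp (measurable_const.prodMk measurable_id : Measurable fun z : V => (t, z))
    have hGt : Measurable (fun y : V => G (cl t, y)) :=
      hGm.comp (measurable_const.prodMk measurable_id)
    calc ∫⁻ x, ∫⁻ y, B (X (cl t) x) y * G (cl t, y)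
        = ∫⁻ z, (∫⁻ y, B z y * G (cl t, y)) ∂(Measure.map (X (cl t)) volume) :=
          (lintegral_map hFt (hXt t).measurable).symm
      _ ≤ ∫⁻ z, (∫⁻ y, B z y * G (cl t, y)) ∂(c • volume) :=
          lintegral_mono' (hmap _ (hclm t)) le_rfl
      _ = c * ∫⁻ z, (∫⁻ y, B z y * G (cl t, y)) := by
          rw [lintegral_smul_measure, smul_eq_mul]
      _ = c * ∫⁻ y, ∫⁻ z, B z y * G (cl t, y) := by
          rw [lintegral_lintegral_swap]
          apply Measurable.aemeasurable
          exact hBm.mul (hGt.comp measurable_snd)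
      _ = c * ∫⁻ y, ENNReal.ofReal (4096 * r ^ 3) * G (cl t, y) := by
          congr 2
          funext y
          have g3 : Measurable (fun z : V => ((z, y) : V × V)) := by fun_prop
          have hBy : Measurable (fun z : V => B z y) := hBm.comp g3
          rw [lintegral_mul_const _ hBy, hvol]
      _ = c * ENNReal.ofReal (4096 * r ^ 3) * ∫⁻ y, G (cl t, y) := by
          rw [lintegral_const_mul _ hGt, mul_assoc]
  have hPhi : Measurable (fun τ : ℝ => ∫⁻ y, G (τ, y)) :=
    Measurable.lintegral_prod_right' hGm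
  -- the whole
  calc ∫⁻ x, ∫⁻ t in Ioo (-1 : ℝ) 0, ∫⁻ y in ball (X (s + r ^ 2 * t) x) (8 * r) ∩ O,
          ENNReal.ofReal (gsq (u (s + r ^ 2 * t)) y)
      = ∫⁻ x, ∫⁻ t in Ioo (-1 : ℝ) 0, ∫⁻ y, B (X (cl t) x) y * G (cl t, y) := by
        congr 1
        funext x
        exact setLIntegral_congr_fun measurableSet_Ioo fun t ht => hinner t ht x
    _ = ∫⁻ t in Ioo (-1 : ℝ) 0, ∫⁻ x, ∫⁻ y, B (X (cl t) x) y * G (cl t, y) := by
        rw [lintegral_lintegral_swap]
        apply Measurable.aemeasurable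
        have h1 : Measurable (fun w : V × ℝ => (w.2, X (cl w.2) w.1)) :=
          measurable_snd.prodMk (hXc.measurable.comp (measurable_snd.prodMk measurable_fst))
        exact hF.comp h1
    _ ≤ ∫⁻ t in Ioo (-1 : ℝ) 0, c * ENNReal.ofReal (4096 * r ^ 3) * ∫⁻ y, G (cl t, y) :=
        lintegral_mono fun t => htime t
    _ = c * ENNReal.ofReal (4096 * r ^ 3) * ∫⁻ t in Ioo (-1 : ℝ) 0, ∫⁻ y, G (cl t, y) :=
        lintegral_const_mul _ (hPhi.comp hclc.measurable)
    _ = c * ENNReal.ofReal (4096 * r) *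
          ∫⁻ t in Ioo (-1 : ℝ) 0, ENNReal.ofReal |r ^ 2| * ∫⁻ y, G (s + r ^ 2 * t, y) := by
        have e1 : ENNReal.ofReal (4096 * r ^ 3)
            = ENNReal.ofReal (4096 * r) * ENNReal.ofReal |r ^ 2| := by
          rw [← ENNReal.ofReal_mul (by positivity), abs_of_pos hr2]
          congr 1
          ring
        have e2 : ∫⁻ t in Ioo (-1 : ℝ) 0, ∫⁻ y, G (cl t, y)
            = ∫⁻ t in Ioo (-1 : ℝ) 0, ∫⁻ y, G (s + r ^ 2 * t, y) :=
          setLIntegral_congr_fun measurableSet_Ioo fun t ht => by rw [hcleq t ht]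
        rw [lintegral_const_mul' _ _ ENNReal.ofReal_ne_top, e1, e2]
        ring
    _ = c * ENNReal.ofReal (4096 * r) * ∫⁻ τ in Ioo (s - r ^ 2) s, ∫⁻ y, G (τ, y) := by
        congr 1
        have himg : (fun t : ℝ => s + r ^ 2 * t) '' Ioo (-1) 0 = Ioo (s - r ^ 2) s := by
          ext τ
          simp only [mem_image, mem_Ioo]
          constructor
          · rintro ⟨t, ⟨h1, h2⟩, rfl⟩
            constructor <;> nlinarith
          · rintro ⟨h1, h2⟩
            refine ⟨(τ - s) / r ^ 2, ⟨?_, ?_⟩, ?_⟩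
            · rw [lt_div_iff₀ hr2]; linarith
            · rw [div_lt_iff₀ hr2]; linarith
            · field_simp; ring
        rw [← himg]
        rw [lintegral_image_eq_lintegral_abs_deriv_mul measurableSet_Ioo
          (f := fun t : ℝ => s + r ^ 2 * t) (f' := fun _ => r ^ 2)]
        · intro t _
          have := ((hasDerivAt_id t).const_mul (r ^ 2)).const_add s
          simpa using this.hasDerivWithinAt
        · intro a _ b _ hab
          simp only at hab
          have : r ^ 2 * a = r ^ 2 * b := by linarith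
          exact mul_left_cancel₀ hr2.ne' this
    _ = _ := by
        congr 1
        exact setLIntegral_congr_fun measurableSet_Ioo fun τ hτ => hlast τ hτ

end W919.MH.MARK3
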